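import Mathlib
import Pool.Agent.Helper147.Univ

/-!
The equational theory of representable implication semigroups is undecidable.
-/

set_option autoImplicit false

universe u

namespace Pool.Agent.Results.MP_86fe4b_lc.EquationalTheory

/-- Terms built from variables by the two binary symbols. -/
inductive Term : Type
  | var (i : ℕ) : Term
  | imp (s t : Term) : Term
  | comp (s t : Term) : Term

/-- The value of a term in an algebra with two binary operations. -/
def Term.eval {S : Type u} (imp comp : S → S → S) (v : ℕ → S) : Term → S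
  | .var i => v i
  | .imp s t => imp (s.eval imp comp v) (t.eval imp comp v)
  | .comp s t => comp (s.eval imp comp v) (t.eval imp comp v)

/-- Relative implication of subsets of `T`: everything in `T` outside `a`, together with `b`. -/
def relImp {X : Type u} (T a b : Set (X × X)) : Set (X × X) := (T \ a) ∪ b

/-- Composition of binary relations. -/
def relComp {X : Type u} (a b : Set (X × X)) : Set (X × X) :=
  {p | ∃ y, (p.1, y) ∈ a ∧ (y, p.2) ∈ b}

/-- Transitivity of a binary relation. -/
def TransRel {X : Type u} (T : Set (X × X)) : Prop :=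
  ∀ x y z, (x, y) ∈ T → (y, z) ∈ T → (x, z) ∈ T

/-- An algebra with two binary operations is a representable implication semigroup if it embeds
into the algebra of all subsets of some transitive relation `T` on some set `X`, with relative
implication and composition. -/
def Representable {S : Type u} (imp comp : S → S → S) : Prop :=
  ∃ (X : Type u) (T : Set (X × X)) (h : S → Set (X × X)),
    TransRel T ∧ Function.Injective h ∧ (∀ a, h a ⊆ T) ∧
      (∀ a b, h (imp a b) = relImp T (h a) (h b)) ∧
      (∀ a b, h (comp a b) = relComp (h a) (h b))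

/-- The equation `s ≈ t` is valid in every representable implication semigroup. -/
def Valid (s t : Term) : Prop :=
  ∀ (S : Type u) (imp comp : S → S → S), Representable imp comp →
    ∀ v : ℕ → S, s.eval imp comp v = t.eval imp comp v

/-- Polish (parenthesis-free) notation of a term as a finite string of natural numbers:
`0` is the implication symbol, `1` is the composition symbol, `i + 2` is the variable `i`. -/
def Term.code : Term → List ℕ
  | .var i => [i + 2]
  | .imp s t => 0 :: (s.code ++ t.code)
  | .comp s t => 1 :: (s.code ++ t.code)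

/-! ### Sanity checks -/

theorem code_prefix : ∀ (s t : Term) (a b : List ℕ), s.code ++ a = t.code ++ b → s = t ∧ a = b := by
  intro s
  induction s with
  | var i =>
    intro t a b h
    cases t with
    | var j => simpa [Term.code] using h
    | imp t₁ t₂ => simp [Term.code] at h
    | comp t₁ t₂ => simp [Term.code] at h
  | imp s₁ s₂ ih₁ ih₂ =>
    intro t a b h
    cases t with
    | var j => simp [Term.code] at h
    | imp t₁ t₂ =>
      simp only [Term.code, List.cons_append, List.append_assoc, List.cons.injEq, true_and] at h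
      obtain ⟨rfl, h₂⟩ := ih₁ _ _ _ h
      obtain ⟨rfl, h₃⟩ := ih₂ _ _ _ h₂
      exact ⟨rfl, h₃⟩
    | comp t₁ t₂ => simp [Term.code] at h
  | comp s₁ s₂ ih₁ ih₂ =>
    intro t a b h
    cases t with
    | var j => simp [Term.code] at h
    | imp t₁ t₂ => simp [Term.code] at h
    | comp t₁ t₂ =>
      simp only [Term.code, List.cons_append, List.append_assoc, List.cons.injEq, true_and] at h
      obtain ⟨rfl, h₂⟩ := ih₁ _ _ _ h
      obtain ⟨rfl, h₃⟩ := ih₂ _ _ _ h₂
      exact ⟨rfl, h₃⟩

/-- Unique readability: different terms have different codes. -/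
theorem code_injective : Function.Injective Term.code := by
  intro s t h
  exact (code_prefix s t [] [] (by simpa using h)).1

theorem relComp_subset {X : Type u} {T : Set (X × X)} (hT : TransRel T) {a b : Set (X × X)}
    (ha : a ⊆ T) (hb : b ⊆ T) : relComp a b ⊆ T := by
  rintro ⟨x, z⟩ ⟨y, h₁, h₂⟩
  exact hT x y z (ha h₁) (hb h₂)

theorem relImp_subset {X : Type u} {T : Set (X × X)} {a b : Set (X × X)}
    (hb : b ⊆ T) : relImp T a b ⊆ T := by
  rintro p (h | h)
  · exact h.1
  · exact hb h

theorem eval_subset {X : Type u} {T : Set (X × X)} (hT : TransRel T) {v : ℕ → Set (X × X)}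
    (hv : ∀ i, v i ⊆ T) (t : Term) : t.eval (relImp T) relComp v ⊆ T := by
  induction t with
  | var i => exact hv i
  | imp s t _ iht => exact relImp_subset iht
  | comp s t ihs iht => exact relComp_subset hT ihs iht

/-- Validity in all representable implication semigroups is the same as validity in all the full
algebras of subsets of a transitive relation. -/
theorem valid_iff (s t : Term) : Valid.{u} s t ↔
    ∀ (X : Type u) (T : Set (X × X)), TransRel T → ∀ v : ℕ → Set (X × X), (∀ i, v i ⊆ T) →
      s.eval (relImp T) relComp v = t.eval (relImp T) relComp v := by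
  constructor
  · intro h X T hT v hv
    let S : Type u := {a : Set (X × X) // a ⊆ T}
    let I : S → S → S := fun a b => ⟨relImp T a.1 b.1, relImp_subset b.2⟩
    let C : S → S → S := fun a b => ⟨relComp a.1 b.1, relComp_subset hT a.2 b.2⟩
    have hrep : Representable I C :=
      ⟨X, T, Subtype.val, hT, Subtype.val_injective, fun a => a.2, fun _ _ => rfl, fun _ _ => rfl⟩
    have key : ∀ t : Term, (t.eval I C (fun i => ⟨v i, hv i⟩)).1 =
        t.eval (relImp T) relComp v := by
      intro t
      induction t with
      | var i => rfl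
      | imp s t ihs iht => simp only [Term.eval, I, ihs, iht]
      | comp s t ihs iht => simp only [Term.eval, C, ihs, iht]
    have := h S I C hrep (fun i => ⟨v i, hv i⟩)
    rw [← key, ← key, this]
  · rintro h S I C ⟨X, T, f, hT, hinj, hsub, hI, hC⟩ v
    apply hinj
    have key : ∀ t : Term, f (t.eval I C v) = t.eval (relImp T) relComp (fun i => f (v i)) := by
      intro t
      induction t with
      | var i => rfl
      | imp s t ihs iht => simp only [Term.eval, hI, ihs, iht]
      | comp s t ihs iht => simp only [Term.eval, hC, ihs, iht]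
    rw [key, key]
    exact h X T hT _ (fun i => hsub _)

/-! ### Words, and words as terms -/

/-- The composition of the variables of a nonempty word. -/
def tw (w : List ℕ) (last : ℕ) : Term := w.foldr (fun x t => .comp (.var x) t) (.var last)

theorem code_tw (w : List ℕ) (last : ℕ) :
    (tw w last).code = w.flatMap (fun x => [1, x + 2]) ++ [last + 2] := by
  induction w with
  | nil => rfl
  | cons x w ih =>
    have : tw (x :: w) last = .comp (.var x) (tw w last) := rfl
    rw [this, Term.code, ih]
    simp [Term.code]

/-- The relation of a possibly empty word. -/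
def relOf {X : Type u} (v : ℕ → Set (X × X)) : List ℕ → Set (X × X)
  | [] => {p | p.1 = p.2}
  | x :: w => relComp (v x) (relOf v w)

theorem relComp_id {X : Type u} (a : Set (X × X)) : relComp a {p | p.1 = p.2} = a := by
  ext ⟨x, z⟩
  simp [relComp]

theorem relComp_assoc {X : Type u} (a b c : Set (X × X)) :
    relComp (relComp a b) c = relComp a (relComp b c) := by
  ext ⟨x, z⟩
  constructor
  · rintro ⟨y, ⟨w, h₁, h₂⟩, h₃⟩
    exact ⟨w, h₁, y, h₂, h₃⟩
  · rintro ⟨w, h₁, y, h₂, h₃⟩
    exact ⟨y, ⟨w, h₁, h₂⟩, h₃⟩

theorem relOf_append {X : Type u} (v : ℕ → Set (X × X)) (w w' : List ℕ) :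
    relOf v (w ++ w') = relComp (relOf v w) (relOf v w') := by
  induction w with
  | nil =>
    ext ⟨x, z⟩
    simp [relComp, relOf]
  | cons x w ih =>
    simp only [List.cons_append, relOf, ih, relComp_assoc]

theorem eval_tw {X : Type u} (T : Set (X × X)) (v : ℕ → Set (X × X)) (w : List ℕ) (last : ℕ) :
    (tw w last).eval (relImp T) relComp v = relOf v (w ++ [last]) := by
  induction w with
  | nil => simp [tw, relOf, Term.eval, relComp_id]
  | cons x w ih =>
    have : tw (x :: w) last = .comp (.var x) (tw w last) := rfl
    rw [this, Term.eval, ih]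
    rfl

/-- The term of a nonempty word. -/
def wt (w : List ℕ) : Term := tw w.dropLast (w.getLastD 0)

theorem eval_wt {X : Type u} (T : Set (X × X)) (v : ℕ → Set (X × X)) (w : List ℕ) (hw : w ≠ []) :
    (wt w).eval (relImp T) relComp v = relOf v w := by
  rw [wt, eval_tw]
  congr 1
  rw [List.getLastD_eq_getLast?, List.getLast?_eq_some_getLast hw]
  exact List.dropLast_append_getLast hw

/-- The union term. -/
def join (a b : Term) : Term := .imp (.imp a b) b

theorem eval_join {X : Type u} {T : Set (X × X)} (hT : TransRel T) {v : ℕ → Set (X × X)}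
    (hv : ∀ i, v i ⊆ T) (a b : Term) : (join a b).eval (relImp T) relComp v =
      a.eval (relImp T) relComp v ∪ b.eval (relImp T) relComp v := by
  have ha := eval_subset hT hv a
  simp only [join, Term.eval, relImp]
  ext p
  simp only [Set.mem_union, Set.mem_sdiff]
  constructor
  · rintro (⟨h₁, h₂⟩ | h)
    · left
      by_contra h
      exact h₂ (Or.inl ⟨h₁, h⟩)
    · right; exact h
  · rintro (h | h)
    · by_cases h' : p ∈ b.eval (relImp T) relComp v
      · right; exact h'
      · left
        refine ⟨ha h, ?_⟩
        rintro (h₃ | h₃)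
        · exact h₃.2 h
        · exact h' h₃
    · right; exact h

/-- The difference term, relative to a variable `0` that plays the role of the empty relation. -/
def sdif (a b : Term) : Term := .imp (.imp a b) (.var 0)

theorem eval_sdif {X : Type u} {T : Set (X × X)} (hT : TransRel T) {v : ℕ → Set (X × X)}
    (hv : ∀ i, v i ⊆ T) (a b : Term) : (sdif a b).eval (relImp T) relComp v =
      (a.eval (relImp T) relComp v \ b.eval (relImp T) relComp v) ∪ v 0 := by
  have ha := eval_subset hT hv a
  simp only [sdif, Term.eval, relImp]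
  ext p
  simp only [Set.mem_union, Set.mem_sdiff]
  constructor
  · rintro (⟨h₁, h₂⟩ | h)
    · left
      refine ⟨?_, fun h => h₂ (Or.inr h)⟩
      by_contra h
      exact h₂ (Or.inl ⟨h₁, h⟩)
    · right; exact h
  · rintro (⟨h, h'⟩ | h)
    · left
      refine ⟨ha h, ?_⟩
      rintro (h₃ | h₃)
      · exact h₃.2 h
      · exact h' h₃
    · right; exact h

/-- The term collecting all the failures of the equations between words of a finite list. -/
def dterm : List (List ℕ × List ℕ) → Term
  | [] => .var 0
  | p :: R => join (join (sdif (wt p.1) (wt p.2)) (sdif (wt p.2) (wt p.1))) (dterm R)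

/-- The ideal term generated by `dterm`. -/
def jterm (R : List (List ℕ × List ℕ)) : Term :=
  let d := dterm R
  let T := Term.imp (.var 0) (.var 0)
  join (join d (.comp T d)) (join (.comp d T) (.comp T (.comp d T)))

theorem eval_top {X : Type u} {T : Set (X × X)} {v : ℕ → Set (X × X)}
    (hv : ∀ i, v i ⊆ T) (i : ℕ) : (Term.imp (.var i) (.var i)).eval (relImp T) relComp v = T := by
  simp only [Term.eval, relImp]
  ext p
  simp only [Set.mem_union, Set.mem_sdiff]
  constructor
  · rintro (h | h)
    · exact h.1
    · exact hv i h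
  · intro h
    by_cases h' : p ∈ v i
    · right; exact h'
    · left; exact ⟨h, h'⟩

theorem mem_dterm {X : Type u} {T : Set (X × X)} (hT : TransRel T) {v : ℕ → Set (X × X)}
    (hv : ∀ i, v i ⊆ T) (R : List (List ℕ × List ℕ)) (hR : ∀ p ∈ R, p.1 ≠ [] ∧ p.2 ≠ [])
    (x : X × X) : x ∈ (dterm R).eval (relImp T) relComp v ↔
      x ∈ v 0 ∨ ∃ p ∈ R, (x ∈ relOf v p.1 ∧ x ∉ relOf v p.2) ∨
        (x ∈ relOf v p.2 ∧ x ∉ relOf v p.1) := by
  induction R with
  | nil => simp [dterm, Term.eval]
  | cons p R ih =>
    have h1 := hR p (by simp)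
    have ih' := ih (fun q hq => hR q (by simp [hq]))
    simp only [dterm, eval_join hT hv, eval_sdif hT hv, Set.mem_union, Set.mem_sdiff, ih',
      eval_wt _ _ _ h1.1, eval_wt _ _ _ h1.2, List.mem_cons]
    constructor
    · rintro (((h | h) | (h | h)) | (h | ⟨q, hq, h⟩))
      · exact Or.inr ⟨p, Or.inl rfl, Or.inl h⟩
      · exact Or.inl h
      · exact Or.inr ⟨p, Or.inl rfl, Or.inr h⟩
      · exact Or.inl h
      · exact Or.inl h
      · exact Or.inr ⟨q, Or.inr hq, h⟩
    · rintro (h | ⟨q, (rfl | hq), (h | h)⟩)
      · exact Or.inr (Or.inl h)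
      · exact Or.inl (Or.inl (Or.inl h))
      · exact Or.inl (Or.inr (Or.inl h))
      · exact Or.inr (Or.inr ⟨q, hq, Or.inl h⟩)
      · exact Or.inr (Or.inr ⟨q, hq, Or.inr h⟩)

theorem mem_jterm {X : Type u} {T : Set (X × X)} (hT : TransRel T) {v : ℕ → Set (X × X)}
    (hv : ∀ i, v i ⊆ T) (R : List (List ℕ × List ℕ)) (x y : X) :
    (x, y) ∈ (jterm R).eval (relImp T) relComp v ↔
      ∃ x' y', (x = x' ∨ (x, x') ∈ T) ∧ (x', y') ∈ (dterm R).eval (relImp T) relComp v ∧
        (y' = y ∨ (y', y) ∈ T) := by
  have e : ∀ a b : Term, (Term.comp a b).eval (relImp T) relComp v =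
    relComp (a.eval (relImp T) relComp v) (b.eval (relImp T) relComp v) := fun _ _ => rfl
  simp only [jterm, eval_join hT hv, e, eval_top hv, Set.mem_union]
  constructor
  · rintro ((h | ⟨x', h₁, h₂⟩) | (⟨y', h₁, h₂⟩ | ⟨x', h₁, ⟨y', h₂, h₃⟩⟩))
    · exact ⟨x, y, Or.inl rfl, h, Or.inl rfl⟩
    · exact ⟨x', y, Or.inr h₁, h₂, Or.inl rfl⟩
    · exact ⟨x, y', Or.inl rfl, h₁, Or.inr h₂⟩
    · exact ⟨x', y', Or.inr h₁, h₂, Or.inr h₃⟩
  · rintro ⟨x', y', (rfl | h₁), h₂, (rfl | h₃)⟩
    · exact Or.inl (Or.inl h₂)
    · exact Or.inr (Or.inl ⟨y', h₂, h₃⟩)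
    · exact Or.inl (Or.inr ⟨x', h₁, h₂⟩)
    · exact Or.inr (Or.inr ⟨x', h₁, ⟨y', h₂, h₃⟩⟩)

/-- The equation attached to the list `R` of defining relations and to two words. -/
def lhs (R : List (List ℕ × List ℕ)) (w : List ℕ) (last : ℕ) : Term := join (tw w last) (jterm R)

/-! ### Soundness: consequences of the defining relations give valid equations -/

/-- Consequence in semigroups: the smallest equivalence relation on words containing `R` and closed
under contexts. -/
inductive Der (R : List (List ℕ × List ℕ)) : List ℕ → List ℕ → Prop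
  | refl (w : List ℕ) : Der R w w
  | symm {w w' : List ℕ} : Der R w w' → Der R w' w
  | trans {w w' w'' : List ℕ} : Der R w w' → Der R w' w'' → Der R w w''
  | rule (a b : List ℕ) (p : List ℕ × List ℕ) : p ∈ R → Der R (a ++ p.1 ++ b) (a ++ p.2 ++ b)

theorem relOf_subset {X : Type u} {T : Set (X × X)} (hT : TransRel T) {v : ℕ → Set (X × X)}
    (hv : ∀ i, v i ⊆ T) (w : List ℕ) (x y : X) (h : (x, y) ∈ relOf v w) :
    x = y ∨ (x, y) ∈ T := by
  induction w generalizing x with
  | nil => exact Or.inl h
  | cons a w ih =>
    obtain ⟨z, h₁, h₂⟩ := h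
    right
    rcases ih z h₂ with h | h
    · subst h; exact hv a h₁
    · exact hT _ _ _ (hv a h₁) h

theorem sound {X : Type u} {T : Set (X × X)} (hT : TransRel T) {v : ℕ → Set (X × X)}
    (hv : ∀ i, v i ⊆ T) (R : List (List ℕ × List ℕ)) (hR : ∀ p ∈ R, p.1 ≠ [] ∧ p.2 ≠ [])
    {w w' : List ℕ} (h : Der R w w') :
    relOf v w ∪ (jterm R).eval (relImp T) relComp v =
      relOf v w' ∪ (jterm R).eval (relImp T) relComp v := by
  have key : ∀ (a b : List ℕ) (l r : List ℕ) (q : List ℕ × List ℕ), q ∈ R →
      ((l = q.1 ∧ r = q.2) ∨ (l = q.2 ∧ r = q.1)) →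
      relOf v (a ++ l ++ b) ⊆ relOf v (a ++ r ++ b) ∪ (jterm R).eval (relImp T) relComp v := by
    rintro a b l r q hq hlr ⟨x, y⟩ hxy
    rw [relOf_append, relOf_append] at hxy
    obtain ⟨y', ⟨x', h₁, h₂⟩, h₃⟩ := hxy
    by_cases h₄ : (x', y') ∈ relOf v r
    · left
      rw [relOf_append, relOf_append]
      exact ⟨y', ⟨x', h₁, h₄⟩, h₃⟩
    · right
      rw [mem_jterm hT hv]
      refine ⟨x', y', relOf_subset hT hv _ _ _ h₁, ?_, relOf_subset hT hv _ _ _ h₃⟩
      rw [mem_dterm hT hv R hR]
      right
      refine ⟨q, hq, ?_⟩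
      rcases hlr with ⟨rfl, rfl⟩ | ⟨rfl, rfl⟩
      · exact Or.inl ⟨h₂, h₄⟩
      · exact Or.inr ⟨h₂, h₄⟩
  induction h with
  | refl w => rfl
  | symm _ ih => exact ih.symm
  | trans _ _ ih₁ ih₂ => exact ih₁.trans ih₂
  | rule a b p hp =>
    apply le_antisymm
    · exact Set.union_subset (key a b _ _ p hp (Or.inl ⟨rfl, rfl⟩)) Set.subset_union_right
    · exact Set.union_subset (key a b _ _ p hp (Or.inr ⟨rfl, rfl⟩)) Set.subset_union_right

theorem valid_of_der (R : List (List ℕ × List ℕ)) (hR : ∀ p ∈ R, p.1 ≠ [] ∧ p.2 ≠ [])
    (w w' : List ℕ) (a a' : ℕ) (h : Der R (w ++ [a]) (w' ++ [a'])) :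
    Valid.{u} (lhs R w a) (lhs R w' a') := by
  rw [valid_iff]
  intro X T hT v hv
  simp only [lhs, eval_join hT hv, eval_tw]
  exact sound hT hv R hR h

/-! ### Completeness: models with total functions -/

/-- Run a word, letter by letter. -/
def run {Y : Type} (act : ℕ → Y → Y) (w : List ℕ) (y : Y) : Y := w.foldl (fun y a => act a y) y

theorem mem_relOf_fun {Y : Type} (act : ℕ → Y → Y) (w : List ℕ) (hw : ∀ a ∈ w, a ≠ 0)
    (p : ULift.{u} Y × ULift.{u} Y) :
    p ∈ relOf (fun i => {p : ULift.{u} Y × ULift.{u} Y | i ≠ 0 ∧ act i p.1.down = p.2.down}) w ↔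
      run act w p.1.down = p.2.down := by
  induction w generalizing p with
  | nil =>
    simp only [relOf, run, List.foldl_nil, Set.mem_ofPred_eq]
    exact ⟨fun h => by rw [h], fun h => ULift.ext _ _ h⟩
  | cons a w ih =>
    have ih' := ih (fun b hb => hw b (by simp [hb]))
    simp only [relOf, relComp, Set.mem_ofPred_eq]
    constructor
    · rintro ⟨y, ⟨_, h₁⟩, h₂⟩
      have := (ih' (y, p.2)).1 h₂
      simp only at this
      rw [← this, ← h₁]
      rfl
    · intro h
      refine ⟨⟨act a p.1.down⟩, ⟨hw a (by simp), rfl⟩, (ih' _).2 ?_⟩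
      exact h

theorem run_eq_of_valid {Y : Type} (act : ℕ → Y → Y) (R : List (List ℕ × List ℕ))
    (hR : ∀ p ∈ R, p.1 ≠ [] ∧ p.2 ≠ []) (hR0 : ∀ p ∈ R, (∀ a ∈ p.1, a ≠ 0) ∧ (∀ a ∈ p.2, a ≠ 0))
    (hact : ∀ p ∈ R, ∀ y, run act p.1 y = run act p.2 y)
    (w w' : List ℕ) (a a' : ℕ) (hw : ∀ b ∈ w ++ [a], b ≠ 0) (hw' : ∀ b ∈ w' ++ [a'], b ≠ 0)
    (h : Valid.{u} (lhs R w a) (lhs R w' a')) (y : Y) :
    run act (w ++ [a]) y = run act (w' ++ [a']) y := by
  rw [valid_iff] at h
  let v : ℕ → Set (ULift.{u} Y × ULift.{u} Y) :=
    fun i => {p : ULift.{u} Y × ULift.{u} Y | i ≠ 0 ∧ act i p.1.down = p.2.down}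
  have hT : TransRel (Set.univ : Set (ULift.{u} Y × ULift.{u} Y)) := fun _ _ _ _ _ => trivial
  have hv : ∀ i, v i ⊆ Set.univ := fun i => Set.subset_univ _
  have h1 := h (ULift.{u} Y) Set.univ hT v hv
  simp only [lhs, eval_join hT hv, eval_tw] at h1
  have hJ : (jterm R).eval (relImp Set.univ) relComp v = ∅ := by
    rw [Set.eq_empty_iff_forall_notMem]
    rintro ⟨x, z⟩ hxz
    rw [mem_jterm hT hv] at hxz
    obtain ⟨x', y', _, h₂, _⟩ := hxz
    rw [mem_dterm hT hv R hR] at h₂
    rcases h₂ with h₂ | ⟨p, hp, h₂⟩
    · exact h₂.1 rfl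
    · have e1 := mem_relOf_fun.{u} act p.1 (hR0 p hp).1 (x', y')
      have e2 := mem_relOf_fun.{u} act p.2 (hR0 p hp).2 (x', y')
      rw [hact p hp] at e1
      have e3 := e1.trans e2.symm
      rcases h₂ with ⟨h₃, h₄⟩ | ⟨h₃, h₄⟩
      · exact h₄ (e3.1 h₃)
      · exact h₄ (e3.2 h₃)
  rw [hJ, Set.union_empty, Set.union_empty] at h1
  have h2 : ((⟨y⟩, ⟨run act (w ++ [a]) y⟩) : ULift.{u} Y × ULift.{u} Y) ∈ relOf v (w ++ [a]) :=
    (mem_relOf_fun.{u} act _ hw _).2 rfl
  rw [h1] at h2
  exact ((mem_relOf_fun.{u} act _ hw' _).1 h2).symm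

/-! ### Encoding of a Turing machine -/

theorem Der.ctx {R : List (List ℕ × List ℕ)} {w w' : List ℕ} (h : Der R w w') (a b : List ℕ) :
    Der R (a ++ w ++ b) (a ++ w' ++ b) := by
  induction h with
  | refl w => exact .refl _
  | symm _ ih => exact ih.symm
  | trans _ _ ih₁ ih₂ => exact ih₁.trans ih₂
  | rule c d p hp =>
    have := Der.rule (R := R) (a ++ c) (d ++ b) p hp
    simpa [List.append_assoc] using this

open Turing StateTransition

section machine

variable {Γ Λ : Type} [Inhabited Γ] [Inhabited Λ]

/-- Letters: a tape symbol (`none` is the end marker) or a state (`none` is the final letter). -/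
abbrev Ltr (Γ Λ : Type) : Type := Option Γ ⊕ Option Λ

/-- The rewriting rules of the machine. -/
inductive Rule (M : TM0.Machine Γ Λ) : List (Ltr Γ Λ) → List (Ltr Γ Λ) → Prop
  | stop (q : Λ) (a : Γ) (h : M q a = none) :
      Rule M [.inr (some q), .inl (some a)] [.inr none, .inl (some a)]
  | write (q : Λ) (a : Γ) (q' : Λ) (b : Γ) (h : M q a = some (q', .write b)) :
      Rule M [.inr (some q), .inl (some a)] [.inr (some q'), .inl (some b)]
  | right (q : Λ) (a : Γ) (q' : Λ) (h : M q a = some (q', .move .right)) :
      Rule M [.inr (some q), .inl (some a)] [.inl (some a), .inr (some q')]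
  | left (q : Λ) (a : Γ) (q' : Λ) (c : Γ) (h : M q a = some (q', .move .left)) :
      Rule M [.inl (some c), .inr (some q), .inl (some a)]
        [.inr (some q'), .inl (some c), .inl (some a)]
  | leftEnd (q : Λ) (a : Γ) (q' : Λ) (h : M q a = some (q', .move .left)) :
      Rule M [.inl none, .inr (some q), .inl (some a)]
        [.inl none, .inr (some q'), .inl (some default), .inl (some a)]
  | ext (q : Λ) : Rule M [.inr (some q), .inl none] [.inr (some q), .inl (some default), .inl none]
  | absL (x : Option Γ) : Rule M [.inr none, .inl x] [.inr none]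
  | absR (x : Option Γ) : Rule M [.inl x, .inr none] [.inr none]

theorem Rule.length {M : TM0.Machine Γ Λ} {l r : List (Ltr Γ Λ)} (h : Rule M l r) :
    l.length ≤ 4 ∧ r.length ≤ 4 := by
  cases h <;> simp

theorem Rule.ne_nil {M : TM0.Machine Γ Λ} {l r : List (Ltr Γ Λ)} (h : Rule M l r) :
    l ≠ [] ∧ r ≠ [] := by
  cases h <;> simp

theorem rule_finite [Finite Γ] [Finite Λ] (M : TM0.Machine Γ Λ) :
    {p : List (Ltr Γ Λ) × List (Ltr Γ Λ) | Rule M p.1 p.2}.Finite := by
  have h1 : {l : List (Ltr Γ Λ) | l.length ≤ 4}.Finite := List.finite_length_le _ 4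
  refine (h1.prod h1).subset ?_
  rintro ⟨l, r⟩ h
  exact ⟨h.length.1, h.length.2⟩

theorem exists_rules [Finite Γ] [Finite Λ] (M : TM0.Machine Γ Λ) (e : Ltr Γ Λ → ℕ) :
    ∃ R : List (List ℕ × List ℕ), ∀ p, p ∈ R ↔
      ∃ l r, Rule M l r ∧ p = (l.map e, r.map e) := by
  have h := (rule_finite M).image (fun p => (p.1.map e, p.2.map e))
  refine ⟨h.toFinset.toList, fun p => ?_⟩
  simp only [Finset.mem_toList, Set.Finite.mem_toFinset, Set.mem_image, Prod.exists]
  constructor
  · rintro ⟨l, r, hr, rfl⟩
    exact ⟨l, r, hr, rfl⟩
  · rintro ⟨l, r, hr, rfl⟩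
    exact ⟨l, r, hr, rfl⟩

/-- The half tape given by a word, read up to the first end marker. -/
def LB : List (Option Γ) → ListBlank Γ
  | [] => ListBlank.mk []
  | none :: _ => ListBlank.mk []
  | some a :: A => ListBlank.cons a (LB A)

/-- Does the machine halt from the configuration given by a state between two words? -/
def Hlt (M : TM0.Machine Γ Λ) (A : List (Option Γ)) (q : Option Λ) (B : List (Option Γ)) : Prop :=
  match q with
  | none => True
  | some q => (eval (TM0.step M) ⟨q, Tape.mk' (LB A) (LB B)⟩).Dom

/-- The state space of the model. -/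
abbrev Sp (Γ : Type) : Type := Option (List (Option Γ) ⊕ (List (Option Γ) → Prop))

/-- The action of the letters. -/
def actL (M : TM0.Machine Γ Λ) : Ltr Γ Λ → Sp Γ → Sp Γ
  | .inl x, some (.inl A) => some (.inl (x :: A))
  | .inl x, some (.inr φ) => some (.inr (fun B => φ (x :: B)))
  | .inr q, some (.inl A) => some (.inr (fun B => Hlt M A q B))
  | .inr _, some (.inr _) => none
  | _, none => none

theorem dom_of_step {M : TM0.Machine Γ Λ} {c c' : TM0.Cfg Γ Λ} (h : TM0.step M c = some c') :
    (eval (TM0.step M) c).Dom ↔ (eval (TM0.step M) c').Dom := by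
  have : Reaches (TM0.step M) c c' := Relation.ReflTransGen.single (by simp [h])
  rw [reaches_eval this]

theorem step_none {M : TM0.Machine Γ Λ} {q : Λ} {T : Tape Γ} (h : M q T.head = none) :
    TM0.step M ⟨q, T⟩ = none := by
  simp [TM0.step, h]

theorem step_some {M : TM0.Machine Γ Λ} {q q' : Λ} {T : Tape Γ} {s : TM0.Stmt Γ}
    (h : M q T.head = some (q', s)) :
    TM0.step M ⟨q, T⟩ = some ⟨q', match s with
      | TM0.Stmt.move d => T.move d
      | TM0.Stmt.write a => T.write a⟩ := by
  simp [TM0.step, h]
  cases s <;> rfl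

theorem Rule.act {M : TM0.Machine Γ Λ} {l r : List (Ltr Γ Λ)} (h : Rule M l r) (y : Sp Γ) :
    l.foldl (fun y a => actL M a y) y = r.foldl (fun y a => actL M a y) y := by
  rcases y with _ | A | φ
  · cases h <;> simp [actL]
  · cases h with
    | stop q a h =>
      simp only [List.foldl_cons, List.foldl_nil, actL]
      congr 2
      funext B
      simp only [Hlt, LB, eq_iff_iff, iff_true]
      rw [Part.dom_iff_mem]
      refine ⟨_, mem_eval.2 ⟨Relation.ReflTransGen.refl, step_none ?_⟩⟩
      simpa using h
    | write q a q' b h =>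
      simp only [List.foldl_cons, List.foldl_nil, actL]
      congr 2
      funext B
      simp only [Hlt, LB, eq_iff_iff]
      rw [dom_of_step (step_some (q' := q') (s := .write b) (by simpa using h))]
      simp
    | right q a q' h =>
      simp only [List.foldl_cons, List.foldl_nil, actL]
      congr 2
      funext B
      simp only [Hlt, LB, eq_iff_iff]
      rw [dom_of_step (step_some (q' := q') (s := .move .right) (by simpa using h))]
      simp
    | left q a q' c h =>
      simp only [List.foldl_cons, List.foldl_nil, actL]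
      congr 2
      funext B
      simp only [Hlt, LB, eq_iff_iff]
      rw [dom_of_step (step_some (q' := q') (s := .move .left) (by simpa using h))]
      simp
    | leftEnd q a q' h =>
      simp only [List.foldl_cons, List.foldl_nil, actL]
      congr 2
      funext B
      simp only [Hlt, LB, eq_iff_iff]
      rw [dom_of_step (step_some (q' := q') (s := .move .left) (by simpa using h))]
      simp
    | ext q =>
      simp only [List.foldl_cons, List.foldl_nil, actL]
      congr 2
    | absL x =>
      simp only [List.foldl_cons, List.foldl_nil, actL]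
      congr 2
    | absR x =>
      simp only [List.foldl_cons, List.foldl_nil, actL]
      congr 2
  · cases h <;> simp [actL]

/-! ### Halting computations give derivations -/

section derive

variable (M : TM0.Machine Γ Λ) (e : Ltr Γ Λ → ℕ) (R : List (List ℕ × List ℕ))

/-- Derivability for words of letters. -/
def E (w w' : List (Ltr Γ Λ)) : Prop := Der R (w.map e) (w'.map e)

variable {M e R}

omit [Inhabited Γ] [Inhabited Λ] in
theorem E.refl (w : List (Ltr Γ Λ)) : E e R w w := Der.refl _

omit [Inhabited Γ] [Inhabited Λ] in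
theorem E.trans {w w' w'' : List (Ltr Γ Λ)} (h : E e R w w') (h' : E e R w' w'') : E e R w w'' :=
  Der.trans h h'

omit [Inhabited Γ] [Inhabited Λ] in
theorem E.ctx {w w' : List (Ltr Γ Λ)} (h : E e R w w') (a b : List (Ltr Γ Λ)) :
    E e R (a ++ w ++ b) (a ++ w' ++ b) := by
  have := Der.ctx h (a.map e) (b.map e)
  simpa [E] using this

theorem E.rule (hR : ∀ l r, Rule M l r → (l.map e, r.map e) ∈ R) {l r : List (Ltr Γ Λ)}
    (h : Rule M l r) (a b : List (Ltr Γ Λ)) : E e R (a ++ l ++ b) (a ++ r ++ b) := by
  have h0 : E e R l r := by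
    have := Der.rule (R := R) [] [] _ (hR l r h)
    simpa [E] using this
  exact h0.ctx a b

theorem absorbL (hR : ∀ l r, Rule M l r → (l.map e, r.map e) ∈ R) (Z : List (Option Γ)) :
    E e R ([.inr none] ++ Z.map .inl) [.inr none] := by
  induction Z with
  | nil => exact E.refl _
  | cons x Z ih =>
    refine E.trans (w' := [.inr none] ++ Z.map .inl) ?_ ih
    have := E.rule hR (Rule.absL (M := M) x) [] (Z.map .inl)
    simpa using this

theorem absorbR (hR : ∀ l r, Rule M l r → (l.map e, r.map e) ∈ R) (Z : List (Option Γ)) :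
    E e R (Z.map .inl ++ [.inr none]) [.inr none] := by
  induction Z using List.reverseRecOn with
  | nil => exact E.refl _
  | append_singleton Z x ih =>
    refine E.trans (w' := Z.map .inl ++ [.inr none]) ?_ ih
    have := E.rule hR (Rule.absR (M := M) x) (Z.map .inl) []
    simpa using this

/-- The word of a configuration. -/
def W (A : List Γ) (q : Option Λ) (B : List Γ) : List (Ltr Γ Λ) :=
  (Sum.inl none :: A.reverse.map (fun a => Sum.inl (some a))) ++
    [Sum.inr q] ++ (B.map (fun a => Sum.inl (some a)) ++ [Sum.inl none])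

theorem W_fin (hR : ∀ l r, Rule M l r → (l.map e, r.map e) ∈ R) (A B : List Γ) :
    E e R (W A none B) [.inr none] := by
  have h1 : (W A none B : List (Ltr Γ Λ)) = (none :: A.reverse.map some).map .inl ++
      ([.inr none] ++ (B.map some ++ [none]).map .inl) ++ [] := by
    simp [W, Function.comp_def]
  rw [h1]
  refine E.trans (E.ctx (absorbL hR _) _ _) ?_
  simpa using absorbR (M := M) hR (none :: A.reverse.map some)

theorem derive (hR : ∀ l r, Rule M l r → (l.map e, r.map e) ∈ R) {c : TM0.Cfg Γ Λ}
    (h : (eval (TM0.step M) c).Dom) : ∀ A B : List Γ,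
      c.Tape = Tape.mk' (ListBlank.mk A) (ListBlank.mk B) →
        E e R (W A (some c.q) B) [.inr none] := by
  obtain ⟨b, hb⟩ := Part.dom_iff_mem.1 h
  obtain ⟨hreach, hnone⟩ := mem_eval.1 hb
  clear h hb
  refine Relation.ReflTransGen.head_induction_on hreach ?_ ?_
  · -- the halting configuration
    have key : ∀ (A : List Γ) (a : Γ) (B : List Γ),
        b.Tape = Tape.mk' (ListBlank.mk A) (ListBlank.mk (a :: B)) →
        E e R (W A (some b.q) (a :: B)) [.inr none] := by
      intro A a B hT
      have hM : M b.q a = none := by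
        by_contra hne
        obtain ⟨⟨q', s⟩, hs⟩ := Option.ne_none_iff_exists'.1 hne
        have : TM0.step M ⟨b.q, b.Tape⟩ = _ := step_some (q' := q') (s := s) (by rw [hT]; simpa using hs)
        rw [hnone] at this
        cases this
      refine E.trans ?_ (W_fin (M := M) hR A (a :: B))
      have := E.rule hR (Rule.stop (M := M) b.q a hM)
        (Sum.inl none :: A.reverse.map (fun a => Sum.inl (some a)))
        (B.map (fun a => Sum.inl (some a)) ++ [Sum.inl none])
      simpa [W] using this
    intro A B hT
    rcases B with _ | ⟨a, B⟩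
    · have h1 := key A default [] (by rw [hT]; rfl)
      refine E.trans ?_ h1
      have := E.rule hR (Rule.ext (M := M) b.q)
        (Sum.inl none :: A.reverse.map (fun a => Sum.inl (some a))) []
      simpa [W] using this
    · exact key A a B hT
  · intro c c' hcc' _ ih
    have key : ∀ (A : List Γ) (a : Γ) (B : List Γ),
        c.Tape = Tape.mk' (ListBlank.mk A) (ListBlank.mk (a :: B)) →
        E e R (W A (some c.q) (a :: B)) [.inr none] := by
      intro A a B hT
      have hc : TM0.step M ⟨c.q, c.Tape⟩ = some c' := hcc'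
      rcases hM : M c.q a with _ | ⟨q', s⟩
      · rw [step_none (by rw [hT]; simpa using hM)] at hc
        cases hc
      · rw [step_some (q' := q') (s := s) (by rw [hT]; simpa using hM)] at hc
        injection hc with hc
        rcases s with d | b'
        · rcases d with _ | _
          · -- move left
            rcases A with _ | ⟨x, A⟩
            · have h1 := ih [] (default :: a :: B) (by rw [← hc]; simp only [hT]; simp)
              refine E.trans ?_ h1
              have := E.rule hR (Rule.leftEnd (M := M) c.q a q' hM) []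
                (B.map (fun a => Sum.inl (some a)) ++ [Sum.inl none])
              rw [← hc]
              simpa [W] using this
            · have h1 := ih A (x :: a :: B) (by rw [← hc]; simp only [hT]; simp)
              refine E.trans ?_ h1
              have := E.rule hR (Rule.left (M := M) c.q a q' x hM)
                (Sum.inl none :: A.reverse.map (fun a => Sum.inl (some a)))
                (B.map (fun a => Sum.inl (some a)) ++ [Sum.inl none])
              rw [← hc]
              simpa [W] using this
          · -- move right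
            have h1 := ih (a :: A) B (by rw [← hc]; simp only [hT]; simp)
            refine E.trans ?_ h1
            have := E.rule hR (Rule.right (M := M) c.q a q' hM)
              (Sum.inl none :: A.reverse.map (fun a => Sum.inl (some a)))
              (B.map (fun a => Sum.inl (some a)) ++ [Sum.inl none])
            rw [← hc]
            simpa [W] using this
        · have h1 := ih A (b' :: B) (by rw [← hc]; simp only [hT]; simp)
          refine E.trans ?_ h1
          have := E.rule hR (Rule.write (M := M) c.q a q' b' hM)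
            (Sum.inl none :: A.reverse.map (fun a => Sum.inl (some a)))
            (B.map (fun a => Sum.inl (some a)) ++ [Sum.inl none])
          rw [← hc]
          simpa [W] using this
    intro A B hT
    rcases B with _ | ⟨a, B⟩
    · have h1 := key A default [] (by rw [hT]; rfl)
      refine E.trans ?_ h1
      have := E.rule hR (Rule.ext (M := M) c.q)
        (Sum.inl none :: A.reverse.map (fun a => Sum.inl (some a))) []
      simpa [W] using this
    · exact key A a B hT

end derive

/-! ### The reduction -/

theorem LB_eq (l : List Γ) (B : List (Option Γ)) :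
    LB (l.map some ++ none :: B) = ListBlank.mk l := by
  induction l with
  | nil => rfl
  | cons a l ih =>
    have : LB ((a :: l).map some ++ none :: B) = ListBlank.cons a (LB (l.map some ++ none :: B)) :=
      rfl
    rw [this, ih]
    simp

theorem foldl_tape (M : TM0.Machine Γ Λ) (l : List Γ) (φ : List (Option Γ) → Prop) :
    (l.map (fun a => Sum.inl (some a))).foldl (fun y a => actL M a y) (some (.inr φ)) =
      some (.inr (fun B => φ (l.map some ++ B))) := by
  induction l generalizing φ with
  | nil => rfl
  | cons a l ih =>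
    rw [List.map_cons, List.foldl_cons]
    have h := ih (fun B => φ (some a :: B))
    have h' : actL M (.inl (some a)) (some (.inr φ)) = some (.inr (fun B => φ (some a :: B))) := rfl
    rw [h', h]
    simp

theorem foldl_init (M : TM0.Machine Γ Λ) (l : List Γ) :
    (Sum.inl none :: Sum.inr (some default) ::
      (l.map (fun a => Sum.inl (some a)) ++ [Sum.inl none]) : List (Ltr Γ Λ)).foldl
        (fun y a => actL M a y) (some (.inl [])) =
      some (.inr (fun B => Hlt M [none] (some default) (l.map some ++ none :: B))) := by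
  rw [List.foldl_cons, List.foldl_cons, List.foldl_append]
  have h1 : actL M (.inr (some default)) (actL M (.inl none) (some (.inl []))) =
    some (.inr (fun B => Hlt M [none] (some default) B)) := rfl
  rw [h1, foldl_tape]
  rfl

theorem run_map {Y L : Type} (e : L → ℕ) (he : Function.Injective e) (g : L → Y → Y)
    (l : List L) (y : Y) :
    run (Function.extend e g (fun _ => id)) (l.map e) y = l.foldl (fun y a => g a y) y := by
  induction l generalizing y with
  | nil => rfl
  | cons a l ih =>
    have := ih (g a y)
    simp only [run, List.map_cons, List.foldl_cons, he.extend_apply] at this ⊢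
    exact this

theorem main_reduction [Finite Γ] [Finite Λ] (M : TM0.Machine Γ Λ) :
    ∃ (e : Ltr Γ Λ → ℕ) (R : List (List ℕ × List ℕ)), ∀ l : List Γ,
      (Valid.{u}
        (lhs R (e (.inl none) :: e (.inr (some default)) :: l.map (fun a => e (.inl (some a))))
          (e (.inl none)))
        (lhs R [] (e (.inr none))) ↔
      (eval (TM0.step M) (TM0.init l)).Dom) := by
  obtain ⟨e0, he0⟩ := Countable.exists_injective_nat (Ltr Γ Λ)
  let e : Ltr Γ Λ → ℕ := fun x => e0 x + 1
  have he : Function.Injective e := fun a b h => he0 (by simpa [e] using h)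
  have hne : ∀ x, e x ≠ 0 := fun x => by simp [e]
  obtain ⟨R, hR⟩ := exists_rules M e
  have hRnil : ∀ p ∈ R, p.1 ≠ [] ∧ p.2 ≠ [] := by
    intro p hp
    obtain ⟨l, r, h, rfl⟩ := (hR p).1 hp
    simpa using h.ne_nil
  have hR0 : ∀ p ∈ R, (∀ a ∈ p.1, a ≠ 0) ∧ (∀ a ∈ p.2, a ≠ 0) := by
    intro p hp
    obtain ⟨l, r, h, rfl⟩ := (hR p).1 hp
    simp only [List.mem_map, forall_exists_index, and_imp, forall_apply_eq_imp_iff₂]
    exact ⟨fun a _ => hne a, fun a _ => hne a⟩
  refine ⟨e, R, fun l => ?_⟩
  have hword : ((Sum.inl none :: Sum.inr (some default) ::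
      (l.map (fun a => Sum.inl (some a)) ++ [Sum.inl none]) : List (Ltr Γ Λ)).map e) =
      (e (.inl none) :: e (.inr (some default)) :: l.map (fun a => e (.inl (some a)))) ++
        [e (.inl none)] := by
    simp [Function.comp_def]
  constructor
  · intro h
    have h1 := run_eq_of_valid.{u} (Y := Sp Γ) (Function.extend e (actL M) (fun _ => id)) R
      hRnil hR0 (by
        intro p hp y
        obtain ⟨l, r, h, rfl⟩ := (hR p).1 hp
        rw [run_map e he, run_map e he]
        exact h.act y) _ _ _ _ (by
        rw [← hword]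
        intro b hb
        obtain ⟨x, _, rfl⟩ := List.mem_map.1 hb
        exact hne x) (by simp [hne]) h (some (.inl []))
    rw [← hword, run_map e he] at h1
    have h2 : ([] ++ [e (.inr none)] : List ℕ) = ([.inr none] : List (Ltr Γ Λ)).map e := rfl
    rw [h2, run_map e he] at h1
    rw [foldl_init] at h1
    have h3 : Hlt M [none] (some default) (l.map some ++ none :: []) = Hlt M [] none [] :=
      congrArg (fun y : Sp Γ => match y with
        | some (.inr φ) => φ []
        | _ => False) h1
    unfold Hlt at h3
    rw [LB_eq] at h3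
    simp only [eq_iff_iff, iff_true] at h3
    exact h3
  · intro h
    apply valid_of_der R hRnil
    have h1 := derive (M := M) (e := e) (R := R) (fun l r h => (hR _).2 ⟨l, r, h, rfl⟩) h [] l rfl
    have h2 : (W [] (some (TM0.init (Γ := Γ) (Λ := Λ) l).q) l : List (Ltr Γ Λ)) =
        Sum.inl none :: Sum.inr (some default) ::
          (l.map (fun a => Sum.inl (some a)) ++ [Sum.inl none]) := by
      simp [W, TM0.init]
    rw [h2] at h1
    unfold E at h1
    rw [hword] at h1
    exact h1

end machine

open Pool.Agent.Helper147.Univ in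
/-- There is no algorithm that decides, for two terms given in Polish notation, whether the
equation between them is valid in every representable implication semigroup. -/
theorem result : ¬ ∃ f : List ℕ × List ℕ → Bool, Computable f ∧
    ∀ s t : Term, f (s.code, t.code) = true ↔ Valid.{u} s t := by
  rintro ⟨f, hf, hfv⟩
  obtain ⟨Λ, i1, i2, M, hM⟩ := exists_machine
  have fK : Finite PartrecToTM2.K' := by
    refine Finite.of_injective (fun k : PartrecToTM2.K' => match k with
      | .main => (0 : Fin 4)
      | .rev => 1
      | .aux => 2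
      | .stack => 3) ?_
    intro a b h
    cases a <;> cases b <;> simp_all
  have fG : Finite (TM2to1.Γ' PartrecToTM2.K' (fun _ => PartrecToTM2.Γ')) :=
    inferInstanceAs (Finite (Bool × (PartrecToTM2.K' → Option PartrecToTM2.Γ')))
  obtain ⟨e, R, hred⟩ := main_reduction.{u} M
  let κ : PartrecToTM2.Γ' → ℕ := fun a => e (.inl (some (sym false a)))
  let w : ℕ → List ℕ := fun n => e (.inl none) :: e (.inr (some default)) ::
    e (.inl (some (sym true .cons))) :: ((PartrecToTM2.trNat n).map κ).reverse
  let J : List ℕ := (jterm R).code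
  let t0 : Term := lhs R [] (e (.inr none))
  let F : ℕ → List ℕ × List ℕ := fun n =>
    (0 :: ((0 :: (((w n).flatMap (fun x => [1, x + 2]) ++ [e (.inl none) + 2]) ++ J)) ++ J), t0.code)
  have hF : ∀ n, F n = ((lhs R (w n) (e (.inl none))).code, t0.code) := by
    intro n
    simp only [F, lhs, join, Term.code, code_tw, J]
  have hFc : Computable F := by
    have hw : Computable w := by
      refine Computable.list_cons.comp (Computable.const _) ?_
      refine Computable.list_cons.comp (Computable.const _) ?_
      refine Computable.list_cons.comp (Computable.const _) ?_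
      exact Computable.list_reverse.comp (digits_computable κ)
    have hfm : Computable (fun l : List ℕ => l.flatMap (fun x => [1, x + 2])) := by
      apply Primrec.to_comp
      refine Primrec.list_flatMap Primrec.id ?_
      have : Primrec (fun x : ℕ => [1, x + 2]) := by
        refine Primrec.list_cons.comp (Primrec.const _) ?_
        refine Primrec.list_cons.comp ?_ (Primrec.const _)
        exact Primrec.nat_add.comp Primrec.id (Primrec.const 2)
      exact this.comp Primrec.snd
    refine Computable.pair ?_ (Computable.const _)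
    refine Computable.list_cons.comp (Computable.const _) ?_
    refine Computable.list_append.comp ?_ (Computable.const _)
    refine Computable.list_cons.comp (Computable.const _) ?_
    refine Computable.list_append.comp ?_ (Computable.const _)
    refine Computable.list_append.comp ?_ (Computable.const _)
    exact hfm.comp hw
  have hdec : ∀ n, f (F n) = true ↔ (u n).Dom := by
    intro n
    rw [hF, hfv, ← hM n, ← hred]
    have : w n = e (.inl none) :: e (.inr (some default)) ::
        (sym true .cons :: (PartrecToTM2.trNat n).reverse.map (sym false)).map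
          (fun a => e (.inl (some a))) := by
      simp [w, κ, List.map_reverse, Function.comp_def]
    rw [this]
  apply u_not_computable
  have h1 : Computable (fun n => f (F n)) := hf.comp hFc
  have h2 : (fun n => (u n).Dom) = (fun n => f (F n) = true) := by
    funext n
    exact propext (hdec n).symm
  rw [h2]
  exact ⟨inferInstance, by simpa using h1⟩

end Pool.Agent.Results.MP_86fe4b_lc.EquationalTheory
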